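import Pool.Agent.Helper54.S1.X
import Pool.Agent.Helper59.Pack.Chain

/-!
# Every convex body in space has a double lattice packing of density at least `1/2`

The proof. By a winding number argument some orthogonal projection `Q` of `K` has a circumscribed
parallelogram which touches `Q` in four points `c ± p`, `c ± q` with one common centre, the sides
through `c ± q` being parallel to `p`. For such a `Q` there are a circumscribed parallelogram of area
at most `√2 |Q|` and a planar lattice packing of density at least `3/4`. If `K` has volume at most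
`0.3555` times the area of `Q` times the largest length of a chord in the direction of projection, a
double lattice packing of density `1/2` is obtained from the planar lattice packing; otherwise it
consists of separated rows over a circumscribed parallelogram, each row a double lattice packing in
one direction.
-/

set_option autoImplicit false

namespace Pool.Agent.Results.MP_3d065d_co.DoubleLatticeHalf

open MeasureTheory Metric Filter
open Pool.Agent.Helper69.MD (E3 IsConvexBody deltaL deltaLstar)
open scoped ENNReal Pointwise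

/-- The translates `u + K`, `u ∈ S`, form a packing: their interiors are pairwise disjoint. -/
def IsTPacking (K S : Set E3) : Prop :=
  ∀ u ∈ S, ∀ w ∈ S, u ≠ w → Disjoint (interior (u +ᵥ K)) (interior (w +ᵥ K))

/-- The density of the family of the translates `u + K`, `u ∈ S`: the limsup, as `r → ∞`, of
`(∑ Vol((u + K) ∩ B(r))) / Vol(B(r))`. -/
noncomputable def tDensity (K S : Set E3) : ℝ≥0∞ :=
  limsup (fun r : ℝ => (∑' u : S, volume (((u : E3) +ᵥ K) ∩ closedBall (0 : E3) r)) /
    volume (closedBall (0 : E3) r)) atTop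

/-- `δ_T(K)`: the supremum of the densities of all packings by translates of `K`. -/
noncomputable def deltaT (K : Set E3) : ℝ≥0∞ :=
  ⨆ (S : Set E3) (_ : IsTPacking K S), tDensity K S

/-- The translates `u + K`, `u ∈ S`, and the reflected copies `w - K`, `w ∈ R`, together form a
packing: the interiors are pairwise disjoint. -/
def IsTstarPacking (K S R : Set E3) : Prop :=
  IsTPacking K S ∧ IsTPacking (-K) R ∧
    ∀ u ∈ S, ∀ w ∈ R, Disjoint (interior (u +ᵥ K)) (interior (w +ᵥ -K))

/-- The density of the family of all `u + K`, `u ∈ S`, and all `w - K`, `w ∈ R`. -/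
noncomputable def tstarDensity (K S R : Set E3) : ℝ≥0∞ :=
  limsup (fun r : ℝ => (∑' u : S, volume (((u : E3) +ᵥ K) ∩ closedBall (0 : E3) r) +
    ∑' w : R, volume (((w : E3) +ᵥ -K) ∩ closedBall (0 : E3) r)) /
    volume (closedBall (0 : E3) r)) atTop

/-- `δ_{T*}(K)`: the supremum of the densities of all packings by translates of `K` and of
`-K`. -/
noncomputable def deltaTstar (K : Set E3) : ℝ≥0∞ :=
  ⨆ (S : Set E3) (R : Set E3) (_ : IsTstarPacking K S R), tstarDensity K S R

/-- `m_L`: the infimum of `δ_L(K)` over all convex bodies `K`. -/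
noncomputable def mL : ℝ≥0∞ := ⨅ (K : Set E3) (_ : IsConvexBody K), deltaL K
/-- `m_T`: the infimum of `δ_T(K)` over all convex bodies `K`. -/
noncomputable def mT : ℝ≥0∞ := ⨅ (K : Set E3) (_ : IsConvexBody K), deltaT K
/-- `m_{L*}`: the infimum of `δ_{L*}(K)` over all convex bodies `K`. -/
noncomputable def mLstar : ℝ≥0∞ := ⨅ (K : Set E3) (_ : IsConvexBody K), deltaLstar K
/-- `m_{T*}`: the infimum of `δ_{T*}(K)` over all convex bodies `K`. -/
noncomputable def mTstar : ℝ≥0∞ := ⨅ (K : Set E3) (_ : IsConvexBody K), deltaTstar K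

/-- Every convex body `K ⊂ ℝ³` has `δ_{L*}(K) ≥ 1/2`; hence
`m_L ≤ m_T < 1/2 ≤ m_{L*} ≤ m_{T*}`. -/
theorem result :
    (∀ K : Set E3, IsConvexBody K → 1 / 2 ≤ deltaLstar K) ∧
      mL ≤ mT ∧ mT < 1 / 2 ∧ 1 / 2 ≤ mLstar ∧ mLstar ≤ mTstar := by
  have h : ∀ K : Set E3, IsConvexBody K → 1 / 2 ≤ deltaLstar K := by
    intro K hK
    have h := Pool.Agent.Helper54.S1.deltaLstar_half hK
    rwa [show ENNReal.ofReal (1 / 2) = 1 / 2 by
      rw [ENNReal.ofReal_div_of_pos (by norm_num)]; simp] at h
  have h1 : mL ≤ mT := Pool.Agent.Helper59.Pack.chain.2.1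
  have h2 : mT ≤ 2 / 5 := Pool.Agent.Helper59.Pack.chain.2.2.1
  have h3 : mLstar ≤ mTstar := Pool.Agent.Helper59.Pack.chain.2.2.2.2
  refine ⟨h, h1, lt_of_le_of_lt h2 ?_, ?_, h3⟩
  · rw [ENNReal.div_lt_iff (Or.inl (by norm_num)) (Or.inl (by norm_num)),
      show (1 / 2 : ℝ≥0∞) * 5 = ENNReal.ofReal (5 / 2) by
        rw [ENNReal.ofReal_div_of_pos (by norm_num), one_div, mul_comm, div_eq_mul_inv]; simp,
      show (2 : ℝ≥0∞) = ENNReal.ofReal 2 by simp]
    exact (ENNReal.ofReal_lt_ofReal_iff (by norm_num)).2 (by norm_num)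
  · unfold mLstar
    exact le_iInf fun K => le_iInf fun hK => h K hK

end Pool.Agent.Results.MP_3d065d_co.DoubleLatticeHalf
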