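import Pool.Agent.Helper58.KB.Final
import Pool.Agent.Helper58.KB.Local
set_option autoImplicit false
namespace Pool.Agent.Results.MP_3d065d_co.TetraNotMinimal
open scoped Pointwise
open Pool.Agent.Helper84.Tet (E3 IsConvexBody tetrahedron)
open Pool.Agent.Helper84.Dbl
open Pool.Agent.Helper58.KB

/-- The tetrahedron `T` is not a minimiser of the double lattice packing density, not even a local
one: for every `ε > 0` there is a convex body `K` with `T ⊆ K ⊆ (1 + ε) T` and
`δ_{L*}(K) < δ_{L*}(T)`; moreover `m_{L*} ≤ 0.7185`, while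
`δ_{L*}(T) = (139 + 40 √10)/369 = 0.71948...`. -/
theorem result :
    (∀ ε : ℝ, 0 < ε → ∃ K : Set E3, IsConvexBody K ∧ tetrahedron ⊆ K ∧
      K ⊆ (1 + ε) • tetrahedron ∧ deltaLstar K < deltaLstar tetrahedron) ∧
    mLstar ≤ ENNReal.ofReal (1437 / 2000) ∧
    ENNReal.ofReal (1437 / 2000) < deltaLstar tetrahedron ∧
    deltaLstar tetrahedron = ENNReal.ofReal ((139 + 40 * Real.sqrt 10) / 369) := by
  refine ⟨fun ε hε => not_local_min hε, ?_, ?_, deltaLstar_tetrahedron⟩
  · have hm : mLstar ≤ deltaLstar (triakis 66) := by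
      unfold mLstar
      exact iInf_le_of_le (triakis 66) (iInf_le_of_le (triakis_convexBody (by norm_num)) le_rfl)
    exact hm.trans deltaLstar_triakis_le
  · rw [deltaLstar_tetrahedron]
    exact (ENNReal.ofReal_lt_ofReal_iff (by linarith [lt_value])).2 lt_value

end Pool.Agent.Results.MP_3d065d_co.TetraNotMinimal
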